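import Pool.Agent.W201.NT.Fin

/-!
# Project NT: from extended metric spaces to metric spaces
-/

set_option autoImplicit false

open Metric Set Module
open scoped Manifold ContDiff Topology

namespace Pool.Agent.W201.NT

open Pool.Agent.Helper381 Bundle

/-- in a connected extended metric space all distances are finite -/
theorem edist_ne_top_of_conn (M : Type) [EMetricSpace M] [PreconnectedSpace M] (x y : M) :
    edist x y ≠ ⊤ := by
  have h : IsClopen (Metric.eball x ⊤) := ⟨isClosed_eball_top, isOpen_eball⟩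
  have h2 : Metric.eball x ⊤ = univ := h.eq_univ ⟨x, mem_eball_self (by simp)⟩
  have h3 : y ∈ Metric.eball x ⊤ := by rw [h2]; trivial
  rw [mem_eball, edist_comm] at h3
  exact h3.ne

/-- the statement for extended metric spaces -/
theorem emetric_version (hBR : S_BR) (hCT : S_CT) (hMF : S_MF) (hDU : S_DU) (hTW : S_TW)
    (hVR : S_VR) (hIS : S_IS) (hID : S_ID) (hFO : S_FO)
    (d : ℕ) (M : Type) [EMetricSpace M] [ChartedSpace (EuclideanSpace ℝ (Fin d)) M]
    [IsManifold (𝓡 d) ∞ M]
    [RiemannianBundle (fun x : M ↦ TangentSpace (𝓡 d) x)]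
    [IsContMDiffRiemannianBundle (𝓡 d) ∞ (EuclideanSpace ℝ (Fin d))
      (fun x : M ↦ TangentSpace (𝓡 d) x)]
    [IsRiemannianManifold (𝓡 d) M] [CompactSpace M] [SimplyConnectedSpace M]
    (s : M → M → M)
    (hs : ∀ x : M, Isometry (s x) ∧ s x x = x ∧
      mfderiv (𝓡 d) (𝓡 d) (s x) x = -ContinuousLinearMap.id ℝ (EuclideanSpace ℝ (Fin d)))
    (hA : ∃ A : Finset M, (∀ x ∈ A, ∀ y ∈ A, s x y = y) ∧
      (∑ i ∈ Finset.range (d + 1),
        Module.finrank ℝ
          ((((AlgebraicTopology.singularHomologyFunctor (ModuleCat.{0} ℝ) i).obj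
            (ModuleCat.of ℝ ℝ)).obj (TopCat.of M) : ModuleCat.{0} ℝ) : Type)) < A.card) :
    ∃ i : ℕ, ∃ g : ((((AlgebraicTopology.singularHomologyFunctor (ModuleCat.{0} ℤ) i).obj
            (ModuleCat.of ℤ ℤ)).obj (TopCat.of M) : ModuleCat.{0} ℤ) : Type),
      addOrderOf g = 2 := by
  have hpc : PathConnectedSpace M := inferInstance
  have hc : ConnectedSpace M := inferInstance
  have hfin : ∀ x y : M, edist x y ≠ ⊤ := fun x y => edist_ne_top_of_conn M x y
  letI : MetricSpace M := EMetricSpace.toMetricSpace hfin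
  obtain ⟨A, hA1, hA2⟩ := hA
  exact metric_version hBR hCT hMF hDU hTW hVR hIS hID hFO d M s hs A hA1 hA2

end Pool.Agent.W201.NT
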