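import Pool.Agent.Helper381.Riem3

/-!
# Project NT (helper201): statements, geometric part

Target: the frozen statement `S13341` (problem MP_6d5819_gt) from the starting result NaganoTorsion.
-/

set_option autoImplicit false

open Metric Set
open scoped Manifold ContDiff Topology

namespace Pool.Agent.W201.NT

open Pool.Agent.Helper381

/-- **IS**: isometries of compact spaces are surjective -/
def S_IS : Prop := ∀ (M : Type) [MetricSpace M] [CompactSpace M] (f : M → M), Isometry f →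
  Function.Surjective f

/-- every two points have a metric midpoint -/
def Mid (M : Type) [MetricSpace M] : Prop :=
  ∀ x y : M, ∃ m : M, dist x m = dist x y / 2 ∧ dist m y = dist x y / 2

/-- **ES**: convexity of the discrete energy, with the constant `1/4 - ε` and the full energy of
the difference of the chains (compare `MetCoef.energy_sc`) -/
def S_ES : Prop := ∀ (E : Type) [NormedAddCommGroup E] [NormedSpace ℝ E] (g : MetCoef E)
  (ρ A ε : ℝ), ρ ≤ g.r → 0 ≤ A → g.C * A ^ 2 + g.C * A / 2 + g.C * ρ / 4 ≤ ε * g.lam →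
  ∀ n : ℕ, 0 < n → ∀ a b : ℕ → E, a 0 = b 0 → (∀ i ≤ n, a i ∈ ball g.x₀ ρ) →
    (∀ i ≤ n, b i ∈ ball g.x₀ ρ) → (∀ i < n, ‖a (i + 1) - a i‖ ≤ A / n) →
    (∀ i < n, ‖b (i + 1) - b i‖ ≤ A / n) →
    g.energy n (fun i => (1 / 2 : ℝ) • (a i + b i)) ≤ (g.energy n a + g.energy n b) / 2 -
      (1 / 4 - ε) * (n * ∑ i ∈ Finset.range n,
        g.G g.x₀ ((b (i + 1) - a (i + 1)) - (b i - a i)) ((b (i + 1) - a (i + 1)) - (b i - a i)))

/-- **SC**: semiconcavity of the squared distance, with the constant `1/4 + ε` (compare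
`Loc.scc_local`) -/
def S_SC : Prop := ∀ (M : Type) [MetricSpace M] (E : Type) [NormedAddCommGroup E] [NormedSpace ℝ E]
  (c : Loc M E), Mid M → ∀ ρ ε : ℝ, 0 < ρ → ρ ≤ c.r₁ → ρ < c.τ →
  c.C * ρ ^ 2 + c.C * ρ / 2 + c.C * ρ / 4 ≤ ε * c.lam → ∀ z u v : E,
    z ∈ ball c.x₀ (ρ / (2 + 2 * c.L ^ 2)) → u ∈ ball c.x₀ (ρ / (2 + 2 * c.L ^ 2)) →
    v ∈ ball c.x₀ (ρ / (2 + 2 * c.L ^ 2)) →
    (dist (c.ψ z) (c.ψ u) ^ 2 + dist (c.ψ z) (c.ψ v) ^ 2) / 2 -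
        (1 / 4 + ε) * c.G c.x₀ (u - v) (u - v) ≤
      dist (c.ψ z) (c.ψ ((1 / 2 : ℝ) • (u + v))) ^ 2

/-- **HV**: the differences of two minimal geodesics from the centre of the chart are almost
halved at the midpoints (task: `S_ES → S_SC → S_HV`) -/
def S_HV : Prop := ∀ (M : Type) [MetricSpace M] (E : Type) [NormedAddCommGroup E] [NormedSpace ℝ E]
  (c : Loc M E), Mid M → ∃ K ρ₀ : ℝ, 0 < K ∧ 0 < ρ₀ ∧ ∀ r : ℝ, 0 < r → r ≤ ρ₀ →
    ∀ u u' a a' : E, u ∈ ball c.x₀ r → u' ∈ ball c.x₀ r → a ∈ ball c.x₀ r → a' ∈ ball c.x₀ r →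
      dist (c.ψ c.x₀) (c.ψ a) = dist (c.ψ c.x₀) (c.ψ u) / 2 →
      dist (c.ψ a) (c.ψ u) = dist (c.ψ c.x₀) (c.ψ u) / 2 →
      dist (c.ψ c.x₀) (c.ψ a') = dist (c.ψ c.x₀) (c.ψ u') / 2 →
      dist (c.ψ a') (c.ψ u') = dist (c.ψ c.x₀) (c.ψ u') / 2 →
      ‖(a - a') - (1 / 2 : ℝ) • (u - u')‖ ^ 2 ≤ K * r * ‖u - u'‖ ^ 2

/-- **ID**: an isometry whose first order part at a fixed point is the identity is the identity
near this point (task: `S_HV → S_ID`) -/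
def S_ID : Prop := ∀ (M : Type) [MetricSpace M] (E : Type) [NormedAddCommGroup E] [NormedSpace ℝ E]
  (c : Loc M E), Mid M → ∀ θ : M → M, Isometry θ → θ (c.ψ c.x₀) = c.ψ c.x₀ →
    (∀ ε : ℝ, 0 < ε → ∃ δ : ℝ, 0 < δ ∧ ∀ y : M, dist y (c.ψ c.x₀) < δ →
      ‖c.φ (θ y) - c.φ y‖ ≤ ε * ‖c.φ y - c.x₀‖) →
    ∃ δ : ℝ, 0 < δ ∧ ∀ y : M, dist (c.ψ c.x₀) y < δ → θ y = y

/-- **FO**: first order expansion in the chart of a map with `θ p = p` and differential `-id` -/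
def S_FO : Prop := ∀ (d : ℕ) (M : Type) [MetricSpace M] [ChartedSpace (EuclideanSpace ℝ (Fin d)) M]
  [IsManifold (𝓡 d) ∞ M], 1 ≤ d → ∀ (θ : M → M) (p : M), θ p = p → Continuous θ →
  mfderiv (𝓡 d) (𝓡 d) θ p = -ContinuousLinearMap.id ℝ (EuclideanSpace ℝ (Fin d)) →
    ∀ ε : ℝ, 0 < ε → ∃ δ : ℝ, 0 < δ ∧ ∀ y : M, dist y p < δ →
      y ∈ (extChartAt (𝓡 d) p).source ∧ θ y ∈ (extChartAt (𝓡 d) p).source ∧
      ‖(extChartAt (𝓡 d) p (θ y) - extChartAt (𝓡 d) p p) +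
        (extChartAt (𝓡 d) p y - extChartAt (𝓡 d) p p)‖ ≤
        ε * ‖extChartAt (𝓡 d) p y - extChartAt (𝓡 d) p p‖

end Pool.Agent.W201.NT
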