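import Pool.Agent.W201.NT.StmT
import Pool.Agent.W201.NT.StmG
import Pool.Agent.Helper381.Main

/-!
# Project NT: assembly
-/

set_option autoImplicit false

open Metric Set Module
open scoped Manifold ContDiff Topology

namespace Pool.Agent.W201.NT

open Pool.Agent.Helper381 Bundle

/-- an element of order two from the explicit homology -/
theorem nt2_of (hBR : S_BR) (X : Type) [TopologicalSpace X]
    (hno : ∀ (i : ℕ) (g : MH ℤ X i), addOrderOf g ≠ 2) : NT2 X := by
  intro n z hz h2
  by_contra hne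
  obtain ⟨e⟩ := hBR ℤ X n
  have hp : Fact (Nat.Prime 2) := ⟨Nat.prime_two⟩
  set c : HX ℤ X n := Submodule.Quotient.mk ⟨z, hz⟩ with hc
  have hc0 : c ≠ 0 := by
    rw [hc, Ne, Submodule.Quotient.mk_eq_zero, Submodule.mem_comap]
    exact hne
  have hc2 : (2 : ℕ) • c = 0 := by
    rw [two_smul, hc, ← Submodule.Quotient.mk_add, Submodule.Quotient.mk_eq_zero,
      Submodule.mem_comap]
    rw [two_smul] at h2
    exact h2
  apply hno n (e c)
  apply addOrderOf_eq_prime
  · rw [← map_nsmul, hc2, map_zero]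
  · rw [Ne, LinearEquiv.map_eq_zero_iff]
    exact hc0

section Betti

variable {E : Type} [NormedAddCommGroup E] [NormedSpace ℝ E] {M : Type} [MetricSpace M]
  [CompactSpace M] {R : ℝ}

/-- the inequality between Betti numbers -/
theorem betti_le (hBR : S_BR) (hDU : S_DU) (hTW : S_TW) [PreconnectedSpace M] [Nonempty M]
    (G : Geo M E R) (d : ℕ) (hv : ∀ n, d < n → Subsingleton (HX ℝ M n)) (hNT : NT2 M) (A : Finset M)
    (hA : IsAntipodal (A : Set M)) :
    A.card ≤ ∑ i ∈ Finset.range (d + 1), finrank ℝ (MH ℝ M i) := by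
  have hp : Fact (Nat.Prime 2) := ⟨Nat.prime_two⟩
  have h1 := G.card_le A hA
  obtain ⟨a1, N1, b1⟩ := G.betti_finite (ZMod 2)
  obtain ⟨a2, N2, b2⟩ := G.betti_finite ℝ
  have hfin : ∀ n, Module.Finite ℝ (HX ℝ M n) := by
    intro n
    obtain ⟨e⟩ := hDU ℝ M n
    have := a2 n
    have h3 : Module.Finite ℝ (Module.Dual ℝ (HX ℝ M n)) := Module.Finite.equiv e
    exact Module.finite_dual_iff ℝ |>.1 h3
  have hfin2 : ∀ n, Module.Finite (ZMod 2) (HX (ZMod 2) M n) := by
    intro n
    obtain ⟨e⟩ := hDU (ZMod 2) M n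
    have := a1 n
    have h3 : Module.Finite (ZMod 2) (Module.Dual (ZMod 2) (HX (ZMod 2) M n)) :=
      Module.Finite.equiv e
    exact Module.finite_dual_iff (ZMod 2) |>.1 h3
  rw [totalBetti_eq (max N1 (d + 1)) a1 (fun n hn => b1 n (le_trans (le_max_left _ _) hn)),
    Nat.cast_le] at h1
  refine h1.trans ?_
  have h4 : ∀ n, finrank (ZMod 2) (SingCoh (ZMod 2) M n) ≤ finrank ℝ (HX ℝ M n) := by
    intro n
    obtain ⟨e⟩ := hDU (ZMod 2) M n
    have := hfin2 n
    rw [LinearEquiv.finrank_eq e, Subspace.dual_finrank_eq]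
    exact hTW M n hNT (hfin n)
  refine (Finset.sum_le_sum fun n _ => h4 n).trans ?_
  have h5 : ∑ n ∈ Finset.range (max N1 (d + 1)), finrank ℝ (HX ℝ M n) =
      ∑ n ∈ Finset.range (d + 1), finrank ℝ (HX ℝ M n) := by
    symm
    apply Finset.sum_subset (Finset.range_mono (le_max_right _ _))
    intro n _ hn
    rw [Finset.mem_range, not_lt] at hn
    have := hv n (by omega)
    exact Module.finrank_zero_of_subsingleton
  rw [h5]
  apply le_of_eq
  refine Finset.sum_congr rfl fun n _ => ?_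
  obtain ⟨e⟩ := hBR ℝ M n
  exact LinearEquiv.finrank_eq e

end Betti

section Sym

/-- an isometry of a compact space as an isometric equivalence -/
noncomputable def isoEq (hIS : S_IS) {M : Type} [MetricSpace M] [CompactSpace M] (f : M → M)
    (hf : Isometry f) : M ≃ᵢ M :=
  { Equiv.ofBijective f ⟨hf.injective, hIS M f hf⟩ with isometry_toFun := hf }

theorem isoEq_apply (hIS : S_IS) {M : Type} [MetricSpace M] [CompactSpace M] (f : M → M)
    (hf : Isometry f) (x : M) : isoEq hIS f hf x = f x := rfl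

variable {d : ℕ} {M : Type} [MetricSpace M] [ChartedSpace (EuclideanSpace ℝ (Fin d)) M]
  [IsManifold (𝓡 d) ∞ M]
  [RiemannianBundle (fun x : M ↦ TangentSpace (𝓡 d) x)]
  [IsContMDiffRiemannianBundle (𝓡 d) ∞ (EuclideanSpace ℝ (Fin d))
      (fun x : M ↦ TangentSpace (𝓡 d) x)]
  [IsRiemannianManifold (𝓡 d) M]

/-- the chart at `p` with its metric coefficients -/
theorem exists_loc' (p : M) : ∃ c : Loc M (EuclideanSpace ℝ (Fin d)),
    c.φ = extChartAt (𝓡 d) p ∧ c.ψ = (extChartAt (𝓡 d) p).symm ∧ c.x₀ = extChartAt (𝓡 d) p p := by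
  obtain ⟨g, hgx, hgt, hG⟩ := exists_metCoef (E := EuclideanSpace ℝ (Fin d)) p
  refine ⟨{ toMetCoef := g, φ := extChartAt 𝓘(ℝ, EuclideanSpace ℝ (Fin d)) p, ψ := psi p,
            φψ := fun v hv =>
              (extChartAt 𝓘(ℝ, EuclideanSpace ℝ (Fin d)) p).right_inv (hgt hv),
            isOpen_image := fun V hV hVo => isOpen_psi_image p (hV.trans hgt) hVo,
            contφ := ?_, contψ := (continuousOn_extChartAt_symm p).mono hgt,
            up := ?_, lo := ?_ }, rfl, rfl, ?_⟩
  · apply (continuousOn_extChartAt p).mono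
    rintro _ ⟨v, hv, rfl⟩
    exact (extChartAt 𝓘(ℝ, EuclideanSpace ℝ (Fin d)) p).map_target (hgt hv)
  · intro x hx y hy K hK h
    apply up_chart p _ K hK
    · intro t ht
      have := h t ht
      rwa [hG] at this
    · intro t ht
      apply hgt
      have := (convex_ball g.x₀ g.r) hx hy (by linarith [ht.2] : (0 : ℝ) ≤ 1 - t) ht.1 (by ring)
      have e : (1 - t) • x + t • y = x + t • (y - x) := by module
      rwa [e] at this
  · intro x hx s K hs hK h y hy
    obtain ⟨w, hw, hwy, hle⟩ := lo_chart p hgt hx hs hK (by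
      intro w hw
      have := h w (by rw [hG]; exact hw)
      refine ⟨this.1, fun v => ?_⟩
      have h2 := this.2 v
      rwa [hG, hG] at h2) y hy
    exact ⟨w, hw, hwy, by rw [hG]; exact hle⟩
  · exact hgx

variable [CompactSpace M] [PreconnectedSpace M]

/-- a symmetry in the sense of the frozen statement is a symmetry in the metric sense -/
theorem isSymm (hIS : S_IS) (hID : S_ID) (hFO : S_FO) (hd : 1 ≤ d) (f : M → M) (hf : Isometry f)
    (p : M) (hp : f p = p)
    (hm : mfderiv (𝓡 d) (𝓡 d) f p = -ContinuousLinearMap.id ℝ (EuclideanSpace ℝ (Fin d))) :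
    IsSymmetryAt p (isoEq hIS f hf) := by
  have hfo := hFO d M hd f p hp hf.continuous hm
  set φ := extChartAt (𝓡 d) p with hφ
  obtain ⟨R, G⟩ := riemannian_geo (E := EuclideanSpace ℝ (Fin d)) (M := M)
  obtain ⟨c, hc1, hc2, hc3⟩ := exists_loc' (d := d) p
  have hc4 : c.ψ c.x₀ = p := by
    rw [hc2, hc3]
    exact extChartAt_to_inv p
  have hdist : ∀ y, dist (f y) p = dist y p := by
    intro y
    conv_lhs => rw [← hp]
    exact hf.dist_eq _ _
  have hid : ∃ δ : ℝ, 0 < δ ∧ ∀ y : M, dist p y < δ → f (f y) = y := by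
    have h := hID M (EuclideanSpace ℝ (Fin d)) c
      (fun x y => exists_midpt (E := EuclideanSpace ℝ (Fin d)) x y)
      (fun y => f (f y)) (hf.comp hf) (by rw [hc4]; simp only [hp]) ?_
    · rw [hc4] at h
      exact h
    · intro ε hε
      rw [hc4, hc1, hc3]
      obtain ⟨δ, hδ, h⟩ := hfo (min (ε / 3) 1) (lt_min (by linarith) one_pos)
      refine ⟨δ, hδ, fun y hy => ?_⟩
      obtain ⟨_, _, h1⟩ := h y hy
      obtain ⟨_, _, h2⟩ := h (f y) (by rw [hdist]; exact hy)
      have hm1 : min (ε / 3) 1 ≤ ε / 3 := min_le_left _ _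
      have hm2 : min (ε / 3) 1 ≤ 1 := min_le_right _ _
      have hm0 : 0 < min (ε / 3) 1 := lt_min (by linarith) one_pos
      set a := ‖φ y - φ p‖ with ha
      have ha0 : 0 ≤ a := norm_nonneg _
      have h3 : ‖φ (f y) - φ p‖ ≤ 2 * a := by
        have h4 : φ (f y) - φ p = ((φ (f y) - φ p) + (φ y - φ p)) - (φ y - φ p) := by abel
        rw [h4]
        refine (norm_sub_le _ _).trans ?_
        nlinarith
      have h5 : φ (f (f y)) - φ y = ((φ (f (f y)) - φ p) + (φ (f y) - φ p)) -
          ((φ (f y) - φ p) + (φ y - φ p)) := by abel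
      rw [h5]
      refine (norm_sub_le _ _).trans ?_
      nlinarith
  have hinv : ∀ y, isoEq hIS f hf (isoEq hIS f hf y) = y := by
    have h := G.eq_id (x := p) ((isoEq hIS f hf).trans (isoEq hIS f hf)) (by
      obtain ⟨δ, hδ, h⟩ := hid
      exact ⟨δ, hδ, fun y hy => h y hy⟩)
    intro y
    exact h y
  refine ⟨hinv, hp, ?_⟩
  obtain ⟨δ, hδ, h⟩ := hfo 1 one_pos
  refine ⟨δ, hδ, fun y hy hfy => ?_⟩
  obtain ⟨hs, _, h1⟩ := h y hy
  have hfy' : f y = y := hfy
  rw [hfy', one_mul] at h1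
  have h2 : ‖(φ y - φ p) + (φ y - φ p)‖ = 2 * ‖φ y - φ p‖ := by
    rw [← two_smul ℝ (φ y - φ p), norm_smul]
    norm_num
  rw [h2] at h1
  have h3 : ‖φ y - φ p‖ = 0 := by
    have := norm_nonneg (φ y - φ p)
    linarith
  rw [norm_eq_zero, sub_eq_zero] at h3
  exact (extChartAt (𝓡 d) p).injOn hs (mem_extChartAt_source p) h3

end Sym

/-- the statement for metric spaces -/
theorem metric_version (hBR : S_BR) (hCT : S_CT) (hMF : S_MF) (hDU : S_DU) (hTW : S_TW)
    (hVR : S_VR) (hIS : S_IS) (hID : S_ID) (hFO : S_FO)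
    (d : ℕ) (M : Type) [MetricSpace M] [ChartedSpace (EuclideanSpace ℝ (Fin d)) M]
    [IsManifold (𝓡 d) ∞ M]
    [RiemannianBundle (fun x : M ↦ TangentSpace (𝓡 d) x)]
    [IsContMDiffRiemannianBundle (𝓡 d) ∞ (EuclideanSpace ℝ (Fin d))
      (fun x : M ↦ TangentSpace (𝓡 d) x)]
    [IsRiemannianManifold (𝓡 d) M] [CompactSpace M] [ConnectedSpace M]
    (s : M → M → M)
    (hs : ∀ x : M, Isometry (s x) ∧ s x x = x ∧
      mfderiv (𝓡 d) (𝓡 d) (s x) x = -ContinuousLinearMap.id ℝ (EuclideanSpace ℝ (Fin d)))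
    (A : Finset M) (hA : ∀ x ∈ A, ∀ y ∈ A, s x y = y)
    (hlt : ∑ i ∈ Finset.range (d + 1), finrank ℝ (MH ℝ M i) < A.card) :
    ∃ i : ℕ, ∃ g : MH ℤ M i, addOrderOf g = 2 := by
  by_contra hno
  push Not at hno
  have hNT := nt2_of hBR M hno
  obtain ⟨R, G⟩ := riemannian_geo (E := EuclideanSpace ℝ (Fin d)) (M := M)
  have hne : Nonempty M := inferInstance
  rcases Nat.eq_zero_or_pos d with hd | hd
  · -- zero-dimensional case: `M` is a point
    subst hd
    have hdisc : DiscreteTopology M := by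
      rw [discreteTopology_iff_isOpen_singleton]
      intro x
      have h1 := (chartAt (EuclideanSpace ℝ (Fin 0)) x).open_source
      have h2 : (chartAt (EuclideanSpace ℝ (Fin 0)) x).source = {x} := by
        apply Set.eq_singleton_iff_unique_mem.2
        refine ⟨mem_chart_source _ x, fun y hy => ?_⟩
        exact (chartAt (EuclideanSpace ℝ (Fin 0)) x).injOn hy (mem_chart_source _ x)
          (Subsingleton.elim _ _)
      rw [← h2]
      exact h1
    have hsub : Subsingleton M := PreconnectedSpace.trivial_of_discrete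
    have hv : ∀ n, 0 < n → Subsingleton (HX ℝ M n) := by
      intro n hn
      apply hVR M n
      apply hCT M _ n hn
      have hi : Inhabited M := Classical.inhabited_of_nonempty hne
      have : Unique M := Unique.mk' M
      infer_instance
    have hAnt : IsAntipodal (A : Set M) := by
      intro x _ y _
      refine ⟨IsometryEquiv.refl M, ⟨fun _ => rfl, rfl, 1, one_pos, fun z _ _ =>
        Subsingleton.elim _ _⟩, Subsingleton.elim _ _⟩
    have := betti_le hBR hDU hTW G 0 hv hNT A hAnt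
    omega
  · have hv : ∀ n, d < n → Subsingleton (HX ℝ M n) := fun n hn => hVR M n (hMF d M hd n hn)
    have hAnt : IsAntipodal (A : Set M) := by
      intro x hx y hy
      refine ⟨isoEq hIS (s x) (hs x).1, isSymm hIS hID hFO hd (s x) (hs x).1 x (hs x).2.1 (hs x).2.2,
        ?_⟩
      exact hA x hx y hy
    have := betti_le hBR hDU hTW G d hv hNT A hAnt
    omega

end Pool.Agent.W201.NT
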