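import Pool.Agent.Helper381.Small

/-!
# Project NT (helper201): statements, topological and algebraic part

Target: the frozen statement `S13341` (problem MP_6d5819_gt) from the starting result NaganoTorsion.
-/

set_option autoImplicit false

open Finsupp

namespace Pool.Agent.W201.NT

open Pool.Agent.Helper381

section Gen

variable (k : Type) [CommRing k] (C : ℕ → Type) [∀ n, AddCommGroup (C n)] [∀ n, Module k (C n)]
  (d : ∀ n, C (n + 1) →ₗ[k] C n)

/-- the cycles of a sequence of linear maps -/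
def gcyc : ∀ n : ℕ, Submodule k (C n)
  | 0 => ⊤
  | (n + 1) => LinearMap.ker (d n)

/-- the homology of a sequence of linear maps -/
abbrev GH (n : ℕ) : Type :=
  ↥(gcyc k C d n) ⧸ (LinearMap.range (d n)).comap (gcyc k C d n).subtype

end Gen

/-- the boundary of singular chains with coefficients in `R` -/
noncomputable def bdR (R : Type) [CommRing R] (X : Type) [TopologicalSpace X] (n : ℕ) :
    (Sing X (n + 1) →₀ R) →ₗ[R] (Sing X n →₀ R) :=
  Finsupp.linearCombination R (fun σ : Sing X (n + 1) =>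
    ∑ i : Fin (n + 2), ((-1 : R) ^ (i : ℕ)) • Finsupp.single (sface n i σ) (1 : R))

theorem bdR_single (R : Type) [CommRing R] (X : Type) [TopologicalSpace X] (n : ℕ)
    (σ : Sing X (n + 1)) : bdR R X n (Finsupp.single σ 1) =
      ∑ i : Fin (n + 2), ((-1 : R) ^ (i : ℕ)) • Finsupp.single (sface n i σ) (1 : R) := by
  rw [bdR, Finsupp.linearCombination_single, one_smul]

/-- for integer coefficients this is the boundary `sbd` of `Helper381.Small` -/
theorem bdR_int (X : Type) [TopologicalSpace X] (n : ℕ) : bdR ℤ X n = sbd X n := by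
  refine Finsupp.lhom_ext' fun σ => LinearMap.ext_ring ?_
  simp only [LinearMap.comp_apply, Finsupp.lsingle_apply]
  rw [bdR_single, sbd, bd_single]

/-- the cycles -/
noncomputable abbrev Cyc (R : Type) [CommRing R] (X : Type) [TopologicalSpace X] (n : ℕ) :
    Submodule R (Sing X n →₀ R) := gcyc R (fun n => Sing X n →₀ R) (bdR R X) n

/-- the boundaries -/
noncomputable abbrev Bdr (R : Type) [CommRing R] (X : Type) [TopologicalSpace X] (n : ℕ) :
    Submodule R (Sing X n →₀ R) := LinearMap.range (bdR R X n)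

/-- explicit singular homology: cycles modulo boundaries -/
abbrev HX (R : Type) [CommRing R] (X : Type) [TopologicalSpace X] (n : ℕ) : Type :=
  GH R (fun n => Sing X n →₀ R) (bdR R X) n

/-- singular homology as in Mathlib -/
abbrev MH (R : Type) [CommRing R] (X : Type) [TopologicalSpace X] (n : ℕ) : Type :=
  ((((AlgebraicTopology.singularHomologyFunctor (ModuleCat.{0} R) n).obj
    (ModuleCat.of R R)).obj (TopCat.of X) : ModuleCat.{0} R) : Type)

/-- the integral homology in degree `n` vanishes: every integral `n`-cycle bounds -/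
def Van (X : Type) [TopologicalSpace X] (n : ℕ) : Prop := Cyc ℤ X n ≤ Bdr ℤ X n

/-- **BR**: the explicit singular homology agrees with the one of Mathlib -/
def S_BR : Prop := ∀ (R : Type) [CommRing R] (X : Type) [TopologicalSpace X] (n : ℕ),
  Nonempty (HX R X n ≃ₗ[R] MH R X n)

/-- **HI**: homotopy invariance (task: `S_BR → S_HI`) -/
def S_HI : Prop := ∀ (X Y : Type) [TopologicalSpace X] [TopologicalSpace Y] (f : C(X, Y))
  (g : C(Y, X)), (f.comp g).Homotopic (ContinuousMap.id Y) → ∀ n : ℕ, Van X n → Van Y n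

/-- **CT**: contractible spaces (task: `S_BR → S_HI → S_CT`) -/
def S_CT : Prop := ∀ (X : Type) [TopologicalSpace X], ContractibleSpace X → ∀ n : ℕ, 1 ≤ n → Van X n

/-- **SUB**: vanishing for a subspace in terms of chains of the ambient space -/
def S_SUB : Prop := ∀ (X : Type) [TopologicalSpace X] (S : Set X) (n : ℕ),
  Van ↥S n ↔ ∀ z ∈ Cyc ℤ X n,
    z ∈ Finsupp.supported ℤ ℤ {σ : Sing X n | Set.range σ ⊆ S} →
    ∃ b ∈ Finsupp.supported ℤ ℤ {σ : Sing X (n + 1) | Set.range σ ⊆ S}, bdR ℤ X n b = z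

/-- **MV**: Mayer-Vietoris (task: `S_SUB → S_MV`) -/
def S_MV : Prop := ∀ (X : Type) [TopologicalSpace X] (A B : Set X), IsOpen A → IsOpen B →
  A ∪ B = Set.univ → ∀ n : ℕ, Van ↥A (n + 1) → Van ↥B (n + 1) → Van ↥(A ∩ B) n → Van X (n + 1)

/-- **MVS**: Mayer-Vietoris for subsets (task: `S_HI → S_MV → S_MVS`) -/
def S_MVS : Prop := ∀ (X : Type) [TopologicalSpace X] (A B : Set X), IsOpen A → IsOpen B →
  ∀ n : ℕ, Van ↥A (n + 1) → Van ↥B (n + 1) → Van ↥(A ∩ B) n → Van ↥(A ∪ B) (n + 1)

/-- **CS**: compact supports (task: `S_SUB → S_CS`) -/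
def S_CS : Prop := ∀ (X : Type) [TopologicalSpace X] (n : ℕ),
  (∀ K : Set X, IsCompact K → ∃ P : Set X, K ⊆ P ∧ Van ↥P n) → Van X n

/-- **LN**: open subsets of the line (task: `S_HI → S_CT → S_MVS → S_CS → S_LN`) -/
def S_LN : Prop := ∀ U : Set ℝ, IsOpen U → ∀ n : ℕ, 1 ≤ n → Van ↥U n

/-- **PR**: the product step (task: `S_HI → S_MVS → S_CS → S_PR`) -/
def S_PR : Prop := ∀ (Y : Type) [TopologicalSpace Y] (m : ℕ), 1 ≤ m →
  (∀ V : Set Y, IsOpen V → ∀ n : ℕ, m ≤ n → Van ↥V n) →
  ∀ U : Set (Y × ℝ), IsOpen U → ∀ n : ℕ, m + 1 ≤ n → Van ↥U n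

/-- **EU**: open subsets of Euclidean space (task: `S_HI → S_LN → S_PR → S_EU`) -/
def S_EU : Prop := ∀ d : ℕ, 1 ≤ d → ∀ U : Set (EuclideanSpace ℝ (Fin d)), IsOpen U →
  ∀ n : ℕ, d ≤ n → Van ↥U n

/-- **MF**: compact manifolds (task: `S_HI → S_MVS → S_EU → S_MF`) -/
def S_MF : Prop := ∀ (d : ℕ) (M : Type) [TopologicalSpace M] [CompactSpace M]
  [ChartedSpace (EuclideanSpace ℝ (Fin d)) M], 1 ≤ d → ∀ n : ℕ, d < n → Van M n

/-- **DU**: over a field, cohomology is dual to homology -/
def S_DU : Prop := ∀ (k : Type) [Field k] (X : Type) [TopologicalSpace X] (n : ℕ),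
  Nonempty (SingCoh k X n ≃ₗ[k] Module.Dual k (HX k X n))

/-- no element of order two in the integral homology -/
def NT2 (X : Type) [TopologicalSpace X] : Prop :=
  ∀ n : ℕ, ∀ z ∈ Cyc ℤ X n, (2 : ℤ) • z ∈ Bdr ℤ X n → z ∈ Bdr ℤ X n

/-- **TW**: without elements of order two the Betti numbers mod 2 are at most the real ones -/
def S_TW : Prop := ∀ (X : Type) [TopologicalSpace X] (n : ℕ), NT2 X →
  Module.Finite ℝ (HX ℝ X n) →
    Module.finrank (ZMod 2) (HX (ZMod 2) X n) ≤ Module.finrank ℝ (HX ℝ X n)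

/-- **VR**: integral vanishing gives real vanishing -/
def S_VR : Prop := ∀ (X : Type) [TopologicalSpace X] (n : ℕ), Van X n → Subsingleton (HX ℝ X n)

end Pool.Agent.W201.NT
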